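import Pool.Agent.CHF.Fin

open Pool.CTS Pool.CHF

namespace Pool.Agent.Results.MP_b301df_lc.ChainBound

/-- The chain lower bound of the symmetric circulant TSP and the exact arithmetic criterion for it to
be attained, for any number of edge lengths. -/
theorem result :
    ∀ (n : ℕ) [NeZero n] (_ : 3 ≤ n) (c : ZMod n → ℝ) (_ : ∀ x, c (-x) = c x)
      (a : ℕ → ZMod n) (ℓ : ℕ) (_ : IsChain c a ℓ),
      (∀ f, chainBound c a ℓ ≤ tourCost c f) ∧
      (Solvable a ℓ ∨ idx a (ℓ - 1) = 2 → ∃ f, tourCost c f = chainBound c a ℓ) ∧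
      ((∀ i < ℓ, ∀ x, x ∉ H a i → x ≠ a i → x ≠ -a i → c (a i) < c x) → idx a (ℓ - 1) ≠ 2 →
        (∃ f, tourCost c f = chainBound c a ℓ) → Solvable a ℓ) ∧
      (Odd (n / idx a (ℓ - 1)) → (∀ i < ℓ - 1, idx a i / idx a (i + 1) ≤ idx a (i + 1) + 1) →
        Solvable a ℓ) := by
  intro n _ hn c hcs a ℓ hc
  exact main hn c hcs a ℓ hc

end Pool.Agent.Results.MP_b301df_lc.ChainBound
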