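import Pool.Agent.CTSP.Stripes

set_option autoImplicit false

/-!
# Symmetric circulant TSP with few stripes contains the unbounded knapsack problem
-/

namespace Pool.Agent.Results.MP_b301df_lc.KnapsackStripes

open CTSP

/-- Consider an instance of the unbounded knapsack problem: capacity `W`, a finite set `I` of items,
an item `μ` has weight `μ` (`1 ≤ μ ≤ W`) and profit `p μ`, target `P`; let `M ≥ p μ` for all items.
It has a solution if and only if the complete graph on `Z_n`, `n = 2 W + 4`, has a Hamiltonian cycle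
which uses only edges of the lengths `W + 2`, `W + 1` and `W + 1 - μ` (`μ ∈ I`), and whose cost
is at most `(2 W + 2) M - P`, when the stripe `W + 2` costs `0`, the stripe `W + 1` costs `M` and
the stripe `W + 1 - μ` costs `(μ + 1) M - p μ`. -/
theorem result (W : ℕ) (I : Finset ℕ) (hI : I ⊆ Finset.Icc 1 W) (p : ℕ → ℕ) (M : ℕ)
    (hp : ∀ μ ∈ I, p μ ≤ M) (n : ℕ) [NeZero n] (hn : n = 2 * W + 4) (P : ℕ) :
    (∃ v : Equiv.Perm (ZMod n), (∀ b ∈ lengths v, Stripe W I b) ∧
      ((lengths v).map (stripeCost W p M)).sum ≤ (2 * (W : ℤ) + 2) * M - P) ↔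
    ∃ T : Multiset ℕ, (∀ μ ∈ T, μ ∈ I) ∧ T.sum ≤ W ∧ P ≤ (T.map p).sum :=
  knapsack_stripes W I hI p M hp n hn P

end Pool.Agent.Results.MP_b301df_lc.KnapsackStripes
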