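import Pool.Agent.CTS.Cor

open Pool.CTS

namespace Pool.Agent.Results.MP_b301df_lc.OneClass

/-- Exact optimum of the symmetric circulant TSP when the chords of one class `v + ⟨a⟩` (`a` a cheapest
residue) dominate or out-price all other residues; in particular for arbitrarily many stripes in one
class, and for all convex costs. -/
theorem result :
    (∀ (n : ℕ) [NeZero n] (_ : 3 ≤ n) (c : ZMod n → ℝ) (_ : ∀ x, c (-x) = c x)
      (a v : ZMod n) (_ : a ≠ 0) (_ : ∀ x, x ≠ 0 → c a ≤ c x) (g : ℕ) (_ : g = n.gcd a.val)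
      (_ : 2 ≤ g) (_ : Nat.Coprime g v.val) (m : ℝ)
      (_ : IsLeast {z : ℝ | ∃ b, OnLine a v b ∧ z = c b - c a} m)
      (L : Finset (ZMod n)) (_ : ∀ x, x ∈ L ↔ OnLine a v x),
      (∀ x, x ≠ 0 → x ≠ a → x ≠ -a →
        Dominated (fun z => c z - c a) a v x ∨ Expensive (fun z => c z - c a) g m a v x) →
      IsOptimalValue c (oneClassValue c a L g m)) ∧
    (∀ (n : ℕ) [NeZero n] (_ : 3 ≤ n) (c : ZMod n → ℝ) (_ : ∀ x, c (-x) = c x)
      (a v : ZMod n) (_ : a ≠ 0) (_ : ∀ x, x ≠ 0 → c a ≤ c x) (g : ℕ) (_ : g = n.gcd a.val)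
      (_ : 2 ≤ g) (_ : Nat.Coprime g v.val) (m : ℝ)
      (_ : IsLeast {z : ℝ | ∃ b, OnLine a v b ∧ z = c b - c a} m)
      (L : Finset (ZMod n)) (_ : ∀ x, x ∈ L ↔ OnLine a v x),
      (∀ x, x ≠ 0 → x ≠ a → x ≠ -a → ¬ OnLine a v x → ¬ OnLine a v (-x) →
        c a + 2 * ((g : ℝ) - 1) * m ≤ c x) →
      IsOptimalValue c (oneClassValue c a L g m)) ∧
    (∀ (n : ℕ) [NeZero n] (_ : 3 ≤ n) (c : ZMod n → ℝ) (_ : ∀ x, c (-x) = c x)
      (_ : ∀ j : ℕ, 2 ≤ j → j + 1 ≤ n / 2 →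
        2 * c (j : ZMod n) ≤ c ((j - 1 : ℕ) : ZMod n) + c ((j + 1 : ℕ) : ZMod n))
      (a : ℕ) (_ : 1 ≤ a) (_ : a ≤ n / 2)
      (_ : ∀ j : ℕ, 1 ≤ j → j ≤ n / 2 → c (a : ZMod n) ≤ c (j : ZMod n))
      (_ : 2 ≤ n.gcd a) (L : Finset (ZMod n)) (_ : ∀ x, x ∈ L ↔ OnLine (a : ZMod n) 1 x),
      IsOptimalValue c (oneClassValue c (a : ZMod n) L (n.gcd a)
        (min (c ((a - 1 : ℕ) : ZMod n)) (c ((a + 1 : ℕ) : ZMod n)) - c (a : ZMod n)))) := by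
  refine ⟨?_, ?_, ?_⟩
  · intro n _ hn c hc a v ha hmin g hg hg2 hv m hm L hL H
    exact main' hn c hc a v ha hmin g hg hg2 hv m hm H L hL
  · intro n _ hn c hc a v ha hmin g hg hg2 hv m hm L hL H
    exact stripes hn c hc a v ha hmin g hg hg2 hv m hm H L hL
  · intro n _ hn c hc hconv a ha1 ha2 hmin hg2 L hL
    exact convex hn c hc hconv a ha1 ha2 hmin hg2 L hL

end Pool.Agent.Results.MP_b301df_lc.OneClass
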