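import Pool.Agent.CTSP.Reduction

set_option autoImplicit false

/-!
# Symmetric circulant TSP: unimodal cost vectors, and the knapsack class

A tour (Hamiltonian cycle of the complete graph on `Z_n`) is given by a permutation `v` of `Z_n`, it
visits `v 0, v 1, ..., v (n - 1), v 0`. Its cost for the cost function `C` on `Z_n` is
`tourCost C v = ∑ i, C (v (i + 1) - v i)`. For a cost vector `c` the edge `{i, j}` costs
`c (circLen n (i - j))`, where `circLen n x` is the distance of `x` to `0` on the cycle `Z_n`.
-/

namespace Pool.Agent.Results.MP_b301df_lc.UnimodalCosts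

open CTSP

/-- Let `g = gcd (a, n) ≥ 2` with `n / g` even.

* For every cost function `C` in the class `KnapsackClass C a E g` (`E` prime to `2 g`) the least cost
  of a tour is `n C(a) + (2 g - 2) (D 1 - C(a)) + V (g - 2)`, where `V = knap e` is the value function
  of the unbounded knapsack problem with the item costs
  `e μ = D (μ + 1) - D 1 - μ (D 1 - C(a))` and `D l = min (C (a + l E)) (C (a - l E))`.
* If `c 1 ≥ c 2 ≥ ... ≥ c a ≤ c (a + 1) ≤ ... ≤ c (n / 2)`, then the circulant costs given by `c`
  belong to this class (with `E = 1`).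
* The values `V 0, ..., V W` are computed by `knapTable` with `W (W + 1)` additions and
  comparisons. -/
theorem result {R : Type*} [AddCommGroup R] [LinearOrder R] [IsOrderedAddMonoid R]
    (n g a : ℕ) [NeZero n] (hg : 2 ≤ g) (ha : Nat.gcd a n = g) (hr : Even (n / g)) :
    (∀ (E : ℕ) (C : ZMod n → R), Nat.Coprime E (2 * g) → KnapsackClass C a E g →
      IsLeast (Set.range (fun v : Equiv.Perm (ZMod n) => tourCost C v)) (knapValue C a E g)) ∧
    (∀ c : ℕ → R, a ≤ n / 2 → (∀ i j, 1 ≤ i → i ≤ j → j ≤ a → c j ≤ c i) →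
      (∀ i j, a ≤ i → i ≤ j → j ≤ n / 2 → c i ≤ c j) →
      KnapsackClass (fun x : ZMod n => c (circLen n x)) a 1 g) ∧
    (∀ (e : ℕ → R) (W : ℕ), (knapTable e W).1 = (List.range (W + 1)).map (fun j => knap e (W - j)) ∧
      (knapTable e W).2 = W * (W + 1)) :=
  ⟨fun _ C hE hC => knapsack_theorem C hg ha hr hE hC,
    fun c ha2 hdown hup => unimodal_class c hg ha hr ha2 hdown hup,
    fun e W => knapTable_spec e W⟩

end Pool.Agent.Results.MP_b301df_lc.UnimodalCosts
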